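import Mathlib

/-! For compact metrizable `K` the space `C(K)` is a norm one linear retract of `C[0,1]`. -/

namespace Pool.Agent.P.MP_eef3c4_an.H

open MeasureTheory Set Filter Topology

noncomputable section

variable {K : Type} [TopologicalSpace K]

/-- The point of the Cantor space obtained by thresholding at level `u`. -/
def thr (φ : ℕ → C(K, ℝ)) (t : K) (u : ℝ) : ℕ → Bool := fun n => decide (u < φ n t)

lemma measurable_thr (φ : ℕ → C(K, ℝ)) (t : K) : Measurable (thr φ t) := by
  refine measurable_pi_lambda _ fun n => ?_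
  refine measurable_to_bool ?_
  have : (fun u : ℝ => thr φ t u n) ⁻¹' {true} = Iio (φ n t) := by
    ext u; simp [thr]
  rw [this]
  exact measurableSet_Iio

lemma cont_thr (φ : ℕ → C(K, ℝ)) (t : K) (u : ℝ) (hu : ∀ n, u ≠ φ n t) :
    ContinuousAt (fun t' => thr φ t' u) t := by
  refine continuousAt_pi.2 fun n => ?_
  refine (continuousAt_const (y := thr φ t u n)).congr ?_
  rcases lt_or_gt_of_ne (hu n) with h | h
  · filter_upwards [(φ n).continuous.continuousAt.eventually (lt_mem_nhds h)] with t' ht'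
    simp [thr, h, ht']
  · filter_upwards [(φ n).continuous.continuousAt.eventually (gt_mem_nhds h)] with t' ht'
    simp [thr, not_lt.2 h.le, not_lt.2 ht'.le]

lemma integrable_thr (φ : ℕ → C(K, ℝ)) (f : C(ℕ → Bool, ℝ)) (t : K) :
    Integrable (fun u => f (thr φ t u)) (volume.restrict (Ioo (0 : ℝ) 1)) :=
  Integrable.of_bound (f.continuous.measurable.comp (measurable_thr φ t)).aestronglyMeasurable
    ‖f‖ (Eventually.of_forall fun _ => f.norm_coe_le_norm _)

/-- The averaging operator. -/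
lemma exists_avg [CompactSpace K] [FirstCountableTopology K] (φ : ℕ → C(K, ℝ)) :
    ∃ A : C(ℕ → Bool, ℝ) →L[ℝ] C(K, ℝ), (∀ f, ‖A f‖ ≤ ‖f‖) ∧
      ∀ f t c, (∀ u ∈ Ioo (0 : ℝ) 1, f (thr φ t u) = c) → A f t = c := by
  have hc : ∀ f : C(ℕ → Bool, ℝ), Continuous fun t => ∫ u in Ioo (0 : ℝ) 1, f (thr φ t u) := by
    intro f
    refine continuous_iff_continuousAt.2 fun t => ?_
    refine continuousAt_of_dominated (bound := fun _ => ‖f‖)
      (Eventually.of_forall fun t' => (integrable_thr φ f t').aestronglyMeasurable)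
      (Eventually.of_forall fun t' => Eventually.of_forall fun _ => f.norm_coe_le_norm _)
      (integrable_const _) ?_
    have h : ∀ᵐ u : ℝ, u ∉ range fun n => φ n t :=
      (countable_range _).ae_notMem _
    filter_upwards [ae_restrict_of_ae h] with u hu
    exact f.continuous.continuousAt.comp (cont_thr φ t u fun n h => hu ⟨n, h.symm⟩)
  let A : C(ℕ → Bool, ℝ) →ₗ[ℝ] C(K, ℝ) :=
    { toFun := fun f => ⟨_, hc f⟩
      map_add' := fun f g => by
        ext t
        exact integral_add (integrable_thr φ f t) (integrable_thr φ g t)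
      map_smul' := fun c f => by
        ext t
        exact integral_const_mul c _ }
  have hA : ∀ f, ‖A f‖ ≤ ‖f‖ := fun f => by
    refine (ContinuousMap.norm_le _ (norm_nonneg f)).2 fun t => ?_
    have := norm_integral_le_of_norm_le_const (μ := volume.restrict (Ioo (0 : ℝ) 1))
      (f := fun u => f (thr φ t u)) (C := ‖f‖) (Eventually.of_forall fun _ => f.norm_coe_le_norm _)
    rw [Measure.real, Measure.restrict_apply_univ] at this
    exact this.trans (by simp)
  refine ⟨A.mkContinuous 1 fun f => by simpa using hA f, hA, fun f t c h => ?_⟩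
  change ∫ u in Ioo (0 : ℝ) 1, f (thr φ t u) = c
  rw [setIntegral_congr_fun measurableSet_Ioo (g := fun _ => c) h]
  simp

lemma norm_comp_le {L : Type*} {M : Type*} [TopologicalSpace L] [CompactSpace L]
    [TopologicalSpace M] [CompactSpace M] (g : C(L, M)) (f : C(M, ℝ)) : ‖f.comp g‖ ≤ ‖f‖ :=
  (ContinuousMap.norm_le _ (norm_nonneg f)).2 fun _ => f.norm_coe_le_norm _

/-- An extension operator from the Cantor space to the interval. -/
lemma cantor : ∃ (ι : C(ℕ → Bool, unitInterval)) (A : C(ℕ → Bool, ℝ) →L[ℝ] C(unitInterval, ℝ)),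
    (∀ f, ‖A f‖ ≤ ‖f‖) ∧ ∀ f, (A f).comp ι = f := by
  let ι : (ℕ → Bool) → unitInterval := fun b =>
    ⟨(cantorSetHomeomorphNatToBool.symm b).1,
      cantorSet_subset_unitInterval (cantorSetHomeomorphNatToBool.symm b).2⟩
  have hc : Continuous ι := by
    refine Continuous.subtype_mk ?_ _
    exact continuous_subtype_val.comp cantorSetHomeomorphNatToBool.symm.continuous
  have hi : Function.Injective ι := fun b b' h =>
    cantorSetHomeomorphNatToBool.symm.injective (Subtype.ext (Subtype.mk.inj h))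
  have he : IsClosedEmbedding ι := hc.isClosedEmbedding hi
  have h : ∀ n, ∃ g : C(unitInterval, ℝ), ∀ b, g (ι b) = if b n then 1 else 0 := by
    intro n
    let f : C(ℕ → Bool, ℝ) := ⟨fun b => if b n then 1 else 0,
      (continuous_of_discreteTopology (f := fun c : Bool => if c then (1 : ℝ) else 0)).comp
        (continuous_apply n)⟩
    obtain ⟨g, hg⟩ := f.exists_extension' he
    exact ⟨g, fun b => congrFun hg b⟩
  choose φ hφ using h
  obtain ⟨A, h1, h2⟩ := exists_avg φ
  refine ⟨⟨ι, hc⟩, A, h1, fun f => ?_⟩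
  ext b
  refine h2 f (ι b) (f b) fun u hu => congrArg f ?_
  funext n
  rw [thr, hφ]
  cases b n
  · simp [hu.1.le]
  · simp [hu.2]

/-- The lemma of Milutin: a map from the Cantor space with an averaging operator. -/
lemma milutin [CompactSpace K] [T2Space K] [SecondCountableTopology K] [Nonempty K] :
    ∃ (γ : C(ℕ → Bool, K)) (A : C(ℕ → Bool, ℝ) →L[ℝ] C(K, ℝ)),
      (∀ f, ‖A f‖ ≤ ‖f‖) ∧ ∀ f : C(K, ℝ), A (f.comp γ) = f := by
  obtain ⟨F, hF⟩ := TopologicalSpace.exists_embedding_l_infty K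
  obtain ⟨e, he⟩ := exists_surjective_nat (ℕ × ℚ × ℕ)
  have hψ : ∀ j, Continuous fun t => F t j := fun j =>
    (continuous_eval_const j).comp hF.continuous
  let φ : ℕ → C(K, ℝ) := fun n =>
    ⟨fun t => ((e n).2.2 + 1) * (F t (e n).1 - (e n).2.1), by have := hψ (e n).1; fun_prop⟩
  let Γ : Set ((ℕ → Bool) × K) := {p | ∀ n, if p.1 n then 0 ≤ φ n p.2 else φ n p.2 ≤ 1}
  have hΓ : IsClosed Γ := by
    have : Γ = ⋂ n, ({p | p.1 n = false} ∪ {p | 0 ≤ φ n p.2}) ∩
        ({p | p.1 n = true} ∪ {p | φ n p.2 ≤ 1}) := by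
      ext p
      simp only [Γ, mem_ofPred_eq, mem_iInter, mem_inter_iff, mem_union]
      refine forall_congr' fun n => ?_
      cases p.1 n <;> simp
    rw [this]
    refine isClosed_iInter fun n => IsClosed.inter (IsClosed.union ?_ ?_) (IsClosed.union ?_ ?_)
    · exact isClosed_eq (by fun_prop) continuous_const
    · exact isClosed_le continuous_const (by fun_prop)
    · exact isClosed_eq (by fun_prop) continuous_const
    · exact isClosed_le (by fun_prop) continuous_const
  have hle : ∀ b t t', (b, t) ∈ Γ → (b, t') ∈ Γ → ∀ j, F t' j ≤ F t j := by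
    intro b t t' h h' j
    by_contra hlt
    obtain ⟨q, h1, h2⟩ := exists_rat_btwn (not_le.1 hlt)
    obtain ⟨m, hm⟩ := exists_nat_one_div_lt (sub_pos.2 h2)
    obtain ⟨n, hn⟩ := he (j, q, m)
    have h3 := h n
    have h4 := h' n
    have hm0 : (0 : ℝ) < m + 1 := by positivity
    rw [div_lt_iff₀ hm0] at hm
    cases hb : b n
    · simp only [hb, φ, hn, ContinuousMap.coe_mk, Bool.false_eq_true, if_false] at h4
      linarith
    · simp only [hb, φ, hn, ContinuousMap.coe_mk, if_true] at h3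
      nlinarith
  have hthr : ∀ t, ∀ u ∈ Ioo (0 : ℝ) 1, (thr φ t u, t) ∈ Γ := by
    intro t u hu n
    by_cases h : u < φ n t
    · simp only [thr, h, decide_true, if_true]
      linarith [hu.1]
    · simp only [thr, h, decide_false, Bool.false_eq_true, if_false]
      linarith [hu.2, not_lt.1 h]
  have : CompactSpace Γ := isCompact_iff_compactSpace.1 hΓ.isCompact
  have hp : IsClosedEmbedding fun p : Γ => p.1.1 := by
    refine Continuous.isClosedEmbedding (by fun_prop) ?_
    rintro ⟨⟨b, t⟩, h⟩ ⟨⟨b', t'⟩, h'⟩ hb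
    obtain rfl : b = b' := hb
    obtain rfl : t = t' := hF.injective
      (BoundedContinuousFunction.ext fun j => le_antisymm (hle b t' t h' h j) (hle b t t' h h' j))
    rfl
  obtain ⟨r, hr, -, hrc⟩ := PiNat.exists_retraction_subtype_of_isClosed hp.isClosed_range
    ⟨_, ⟨⟨_, hthr (Classical.arbitrary K) (1 / 2) (by norm_num)⟩, rfl⟩⟩
  obtain ⟨A, h1, h2⟩ := exists_avg φ
  refine ⟨⟨fun b => (hp.isEmbedding.toHomeomorph.symm (r b)).1.2, by fun_prop⟩, A, h1,
    fun f => ?_⟩
  ext t
  refine h2 _ t (f t) fun u hu => ?_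
  have h3 := hr (hp.isEmbedding.toHomeomorph ⟨_, hthr t u hu⟩)
  change r (thr φ t u) = _ at h3
  simp only [ContinuousMap.comp_apply, ContinuousMap.coe_mk, h3, Homeomorph.symm_apply_apply]

theorem retract (K : Type) [TopologicalSpace K] [CompactSpace K] [T2Space K]
    [SecondCountableTopology K] [Nonempty K] :
    ∃ (A : C(K, ℝ) →L[ℝ] C(unitInterval, ℝ)) (R : C(unitInterval, ℝ) →L[ℝ] C(K, ℝ)),
      (∀ f, ‖A f‖ ≤ ‖f‖) ∧ (∀ f, ‖R f‖ ≤ ‖f‖) ∧ ∀ f, R (A f) = f := by
  obtain ⟨ι, A, h1, h2⟩ := cantor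
  obtain ⟨γ, B, h3, h4⟩ := milutin (K := K)
  refine ⟨A.comp (ContinuousMap.compCLM ℝ ℝ γ), B.comp (ContinuousMap.compCLM ℝ ℝ ι),
    fun f => (h1 _).trans (norm_comp_le γ f), fun f => (h3 _).trans (norm_comp_le ι f),
    fun f => ?_⟩
  change B ((A (f.comp γ)).comp ι) = f
  rw [h2, h4]

end

end Pool.Agent.P.MP_eef3c4_an.H
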