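import Pool.Agent.P.MP_eef3c4_an.Seq
import Pool.Agent.P.MP_eef3c4_an.H.Mil

/-! Copies of a superreflexive space in `C[0,1]` with a prescribed extension constant. -/

namespace Pool.Agent.P.MP_eef3c4_an.H

open Set Filter Topology

noncomputable section

variable {X : Type} [NormedAddCommGroup X] [NormedSpace ℝ X]

lemma norm_canon (x : X) : ‖canon X x‖ ≤ ‖x‖ :=
  (ContinuousMap.norm_le _ (norm_nonneg x)).2 fun s => s.abs_le x

/-- Every operator into `C(K)` factors through the canonical operator. -/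
lemma factor {K : Type*} [TopologicalSpace K] [CompactSpace K] (T : X →L[ℝ] C(K, ℝ)) {c : ℝ}
    (h0 : 0 ≤ c) (hc : ∀ x, ‖T x‖ ≤ c * ‖x‖) :
    ∃ S : C(Ball X, ℝ) →L[ℝ] C(K, ℝ), (∀ f, ‖S f‖ ≤ c * ‖f‖) ∧ ∀ x, S (canon X x) = T x := by
  rcases h0.eq_or_lt with rfl | h0
  · refine ⟨0, fun f => by simp, fun x => ?_⟩
    have := hc x
    rw [zero_mul, norm_le_zero_iff] at this
    simp [this]
  let s : K → StrongDual ℝ X := fun k => c⁻¹ • (ContinuousMap.evalCLM ℝ k).comp T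
  have hs : ∀ k x, s k x = c⁻¹ * T x k := fun k x => rfl
  have h1 : ∀ k, ‖s k‖ ≤ 1 := fun k => by
    refine ContinuousLinearMap.opNorm_le_bound _ zero_le_one fun x => ?_
    rw [hs, norm_mul, norm_inv, Real.norm_of_nonneg h0.le, inv_mul_le_iff₀ h0, one_mul]
    exact ((T x).norm_coe_le_norm k).trans (hc x)
  have h2 : ∀ k, StrongDual.toWeakDual (s k) ∈ (WeakDual.toStrongDual ⁻¹'
      Metric.closedBall (0 : StrongDual ℝ X) 1 : Set (WeakDual ℝ X)) := fun k => by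
    simpa using h1 k
  have h3 : Continuous fun k => StrongDual.toWeakDual (s k) :=
    WeakDual.continuous_of_continuous_eval fun x => (T x).continuous.const_mul c⁻¹
  let φ : C(K, Ball X) := ⟨fun k => ⟨_, h2 k⟩, h3.subtype_mk h2⟩
  refine ⟨c • ContinuousMap.compCLM ℝ ℝ φ, fun f => ?_, fun x => ?_⟩
  · change ‖c • f.comp φ‖ ≤ _
    rw [norm_smul, Real.norm_of_nonneg h0.le]
    exact mul_le_mul_of_nonneg_left (norm_comp_le φ f) h0.le
  · ext k
    change c * (c⁻¹ * T x k) = T x k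
    rw [mul_inv_cancel_left₀ h0.ne']

/-- An approximate extension of the canonical operator gives an exact one. -/
lemma exact_of_approx {Y : Type} [NormedAddCommGroup Y] [NormedSpace ℝ Y] (j : X → Y)
    (a : Y →L[ℝ] C(Ball X, ℝ)) (D : X →L[ℝ] C(Ball X, ℝ)) {θ : ℝ} (h0 : 0 ≤ θ) (h1 : θ < 1)
    (hD : ∀ x, ‖D x‖ ≤ θ * ‖x‖) (ha : ∀ x, a (j x) = canon X x - D x) :
    ∃ v : Y →L[ℝ] C(Ball X, ℝ), ∀ x, v (j x) = canon X x := by
  obtain ⟨S, hS, hS'⟩ := factor D h0 hD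
  have h2 : ‖S‖ < 1 := (ContinuousLinearMap.opNorm_le_bound _ h0 hS).trans_lt h1
  refine ⟨((Units.oneSub S h2)⁻¹ : (C(Ball X, ℝ) →L[ℝ] C(Ball X, ℝ))ˣ).1.comp a, fun x => ?_⟩
  have h3 : a (j x) = (Units.oneSub S h2).1 (canon X x) := by
    rw [ha, ← hS', Units.val_oneSub]; rfl
  rw [ContinuousLinearMap.comp_apply, h3, ← mul_apply_eq_comp, Units.inv_mul]
  rfl

/-- A continuous function on a disjoint union from its two parts. -/
def glue {A B : Type} [TopologicalSpace A] [TopologicalSpace B] :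
    C(A, ℝ) × C(B, ℝ) →ₗ[ℝ] C(A ⊕ B, ℝ) where
  toFun p := ⟨Sum.elim p.1 p.2, p.1.continuous.sumElim p.2.continuous⟩
  map_add' p q := by ext (a | b) <;> rfl
  map_smul' c p := by ext (a | b) <;> rfl

lemma norm_glue {A B : Type} [TopologicalSpace A] [TopologicalSpace B] [CompactSpace A]
    [CompactSpace B] (p : C(A, ℝ) × C(B, ℝ)) : ‖glue p‖ ≤ ‖p‖ := by
  refine (ContinuousMap.norm_le _ (norm_nonneg p)).2 ?_
  rintro (a | b)
  · exact (p.1.norm_coe_le_norm a).trans (norm_fst_le p)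
  · exact (p.2.norm_coe_le_norm b).trans (norm_snd_le p)

theorem all {Z : Type} [NormedAddCommGroup Z] [NormedSpace ℝ Z]
    [TopologicalSpace.SeparableSpace X] (hX : ¬ FiniteDimensional ℝ X) [UniformConvexSpace Z]
    (Φ : X ≃L[ℝ] Z) {t : ℝ} (h0 : 0 ≤ t) (h1 : t ≤ 1) :
    ∃ J : X →ₗᵢ[ℝ] C(unitInterval, ℝ),
      (∃ U : C(unitInterval, ℝ) →L[ℝ] C(Ball X, ℝ), (∀ f, ‖U f‖ ≤ ‖f‖) ∧
        ∀ x, U (J x) = t • canon X x) ∧
      ∀ V : C(unitInterval, ℝ) →L[ℝ] C(Ball X, ℝ), (∀ x, V (J x) = canon X x) → 1 ≤ t * ‖V‖ := by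
  obtain ⟨j, hj⟩ := main hX Φ
  have : TopologicalSpace.MetrizableSpace (Ball X) :=
    WeakDual.metrizable_of_isCompact ℝ X _ (WeakDual.isCompact_closedBall _ _)
  have : SecondCountableTopology (Ball X) := inferInstance
  obtain ⟨A, R, hA, hR, hRA⟩ := retract (unitInterval ⊕ Ball X)
  let G : C(unitInterval, ℝ) × C(Ball X, ℝ) →L[ℝ] C(unitInterval, ℝ) :=
    A.comp (glue.mkContinuous 1 fun p => by simpa using norm_glue p)
  have hG : ∀ p, ‖G p‖ ≤ ‖p‖ := fun p => (hA _).trans (norm_glue p)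
  have hRG : ∀ p, R (G p) = glue p := fun p => hRA _
  have ht : ∀ x, ‖t • canon X x‖ ≤ t * ‖x‖ := fun x => by
    rw [norm_smul, Real.norm_of_nonneg h0]
    exact mul_le_mul_of_nonneg_left (norm_canon x) h0
  let J : X →L[ℝ] C(unitInterval, ℝ) := G.comp (j.toContinuousLinearMap.prod (t • canon X))
  have hJ : ∀ x, J x = G (j x, t • canon X x) := fun x => rfl
  refine ⟨⟨J.toLinearMap, fun x => le_antisymm ?_ ?_⟩, ⟨(ContinuousMap.compCLM ℝ ℝ
    ⟨Sum.inr, continuous_inr⟩).comp R, fun f => (norm_comp_le _ _).trans (hR f), fun x => ?_⟩,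
    fun V hV => ?_⟩
  · refine (hG _).trans (max_le (j.norm_map x).le ((ht x).trans ?_))
    exact mul_le_of_le_one_left (norm_nonneg x) h1
  · refine le_trans ?_ (hR (J x))
    rw [hJ, hRG, ← j.norm_map x]
    exact norm_comp_le ⟨Sum.inl, continuous_inl⟩ (glue (j x, t • canon X x))
  · change (R (J x)).comp _ = _
    rw [hJ, hRG]
    rfl
  · by_contra hlt
    let a : C(unitInterval, ℝ) →L[ℝ] C(Ball X, ℝ) :=
      V.comp (G.comp (ContinuousLinearMap.inl ℝ C(unitInterval, ℝ) C(Ball X, ℝ)))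
    let D : X →L[ℝ] C(Ball X, ℝ) := V.comp (G.comp
      ((ContinuousLinearMap.inr ℝ C(unitInterval, ℝ) C(Ball X, ℝ)).comp (t • canon X)))
    have ha : ∀ f, a f = V (G (f, 0)) := fun _ => rfl
    have hD : ∀ x, D x = V (G (0, t • canon X x)) := fun _ => rfl
    have h2 : ∀ x, ‖D x‖ ≤ t * ‖V‖ * ‖x‖ := fun x => by
      have h3 : ‖((0 : C(unitInterval, ℝ)), t • canon X x)‖ ≤ t * ‖x‖ := by
        rw [Prod.norm_mk, norm_zero]
        exact max_le (mul_nonneg h0 (norm_nonneg x)) (ht x)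
      rw [hD]
      exact (V.le_of_opNorm_le_of_le le_rfl ((hG _).trans h3)).trans_eq (by ring)
    have h3 : ∀ x, a (j x) = canon X x - D x := fun x => by
      have h4 : V (G (j x, t • canon X x)) = canon X x := hV x
      rw [ha, hD, eq_sub_iff_add_eq, ← map_add, ← map_add, Prod.mk_add_mk, add_zero, zero_add, h4]
    obtain ⟨v, hv⟩ := exact_of_approx j a D (mul_nonneg h0 V.opNorm_nonneg) (not_le.1 hlt) h2 h3
    exact hj v fun x s => by rw [hv]; rfl

end

end Pool.Agent.P.MP_eef3c4_an.H
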